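import Pool.Agent.Helper17.G5.Key5

/-!
# G5: the key inequality, final forms
-/

set_option autoImplicit false
set_option linter.unusedVariables false

namespace Pool.Agent.Helper17.G5

open MeasureTheory Set Metric
open scoped Real
open Pool.Agent.Helper17.G3
open Pool.Agent.Helper33.G5 (Tw)

/-- the key inequality in the `w`-plane -/
theorem keyW {k : ℂ → ℝ} {V : Set ℂ} {Lk ρ kinf c1 c2 e2 m1 : ℝ}
    (hW : Tw V k Lk ρ kinf c1 c2 e2 m1) (hV : ∀ v ∈ V, ‖v‖ = 1) {A : ℝ} (hA : 1 ≤ A) :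
    ∃ lam c0 m0 d0 : ℝ, 0 < lam ∧ lam ≤ 1 ∧ 0 < c0 ∧ c0 ≤ 1 / 2 ∧ 0 < m0 ∧ m0 ≤ 1 ∧ 0 < d0 ∧
      d0 ≤ 1 / 4 ∧ d0 * (2 + A) ≤ 1 ∧ ∀ v ∈ V, ∀ d : ℝ, 0 < d → d ≤ d0 → ∀ m : ℝ, 0 < m → m ≤ m0 →
      ∀ ζ : ℂ, ζ ≠ 0 → ∃ ν₁ : ℝ, 0 ≤ ν₁ ∧ ν₁ ≤ 1 ∧ ∃ H : ℂ → ℝ, Measurable H ∧ Integrable H ∧
        (∀ y, 0 ≤ H y) ∧ (∀ y, 11 + ρ ≤ ‖y‖ → H y = 0) ∧
        (∀ y : ℂ, 4 * m ≤ ‖y‖ →
          hk y - 1 / 2 + mu k ν₁ ζ y + sh k m lam v ζ y + er A d m y ≤ H y) ∧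
        ∫ y, H y ≤ (1 - c0) * (π / 2) := by
  have hLk := hW.hL
  have hρ := hW.hρ
  have hc1 := hW.hc1
  have hc2 := hW.hc2
  have hm1 := hW.hm1
  have hπ := Real.pi_pos
  have hπ4 := Real.pi_lt_d2
  obtain ⟨ν₁, hν, hν1, hνc⟩ : ∃ ν₁ : ℝ, 0 < ν₁ ∧ ν₁ ≤ 1 / 32 ∧ 640 * π * ν₁ ≤ c1 := by
    refine ⟨min (1 / 32) (c1 / (640 * π)), by positivity, min_le_left _ _, ?_⟩
    calc 640 * π * min (1 / 32) (c1 / (640 * π)) ≤ 640 * π * (c1 / (640 * π)) :=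
          mul_le_mul_of_nonneg_left (min_le_right _ _) (by positivity)
      _ = c1 := by field_simp
  have hν1c : 0 < ν₁ * c1 := by positivity
  -- the constant `lam`
  set T : ℝ := 1 + 12 * Lk + 90 * π * Lk ^ 2 / c2 + Lk / (2 * ν₁) + 4 * π * Lk / (ν₁ * c1) +
    16 * π * (Lk * (1 + 2 * ρ) ^ 2) / (ν₁ * c1) with hT
  have t1 : 0 < 12 * Lk := by positivity
  have t2 : 0 < 90 * π * Lk ^ 2 / c2 := by positivity
  have t3 : 0 < Lk / (2 * ν₁) := by positivity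
  have t4 : 0 < 4 * π * Lk / (ν₁ * c1) := by positivity
  have t5 : 0 < 16 * π * (Lk * (1 + 2 * ρ) ^ 2) / (ν₁ * c1) := by positivity
  have hT0 : 0 < T := by linarith
  have hx : ∀ x y : ℝ, 0 < y → x / y ≤ T → 1 / T * x ≤ y := by
    intro x y hy h
    rw [one_div, inv_mul_le_iff₀ hT0, mul_comm T y, ← div_le_iff₀' hy]
    exact h
  set lam : ℝ := 1 / T with hlam
  have hl : 0 < lam := by positivity
  have hl1 : lam ≤ 1 := by
    rw [hlam, div_le_one hT0]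
    linarith
  have l1 : lam * Lk ≤ 1 / 12 := by
    have := hx (12 * Lk) 1 one_pos (by rw [div_one]; linarith)
    linarith
  have l2 : 90 * π * (lam * Lk ^ 2) ≤ c2 := by
    have := hx (90 * π * Lk ^ 2) c2 hc2 (by linarith)
    linarith
  have l3 : lam * Lk ≤ 2 * ν₁ := hx Lk (2 * ν₁) (by positivity) (by linarith)
  have l4 : 4 * π * (lam * Lk) ≤ ν₁ * c1 := by
    have := hx (4 * π * Lk) (ν₁ * c1) hν1c (by linarith)
    linarith
  have l5 : 16 * π * (lam * Lk * (1 + 2 * ρ) ^ 2) ≤ ν₁ * c1 := by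
    have := hx (16 * π * (Lk * (1 + 2 * ρ) ^ 2)) (ν₁ * c1) hν1c (by linarith)
    linarith
  -- the gain
  obtain ⟨g, hg, hg1, hg2, hg3⟩ : ∃ g : ℝ, 0 < g ∧ g ≤ 1 ∧ g ≤ lam * c2 / 4 ∧ g ≤ ν₁ * c1 / 2 :=
    ⟨min 1 (min (lam * c2 / 4) (ν₁ * c1 / 2)), by positivity, min_le_left _ _,
      (min_le_right _ _).trans (min_le_left _ _), (min_le_right _ _).trans (min_le_right _ _)⟩
  have hA9 : 9 ≤ (2 + A) ^ 2 := by nlinarith
  set u : ℝ := g / (1200 * (2 + A) ^ 2) with hu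
  have hu0 : 0 < u := by positivity
  have hug : 1200 * (2 + A) ^ 2 * u = g := by
    rw [hu]
    field_simp
  have hu1 : (2 + A) ^ 2 * u ≤ 1 / 1200 := by linarith
  have hu2 : u ≤ 1 / 1200 / 9 := by
    rw [le_div_iff₀ (by norm_num)]
    nlinarith
  obtain ⟨m0, hm0, hm01, hm02, hm03, hm04⟩ : ∃ m0 : ℝ, 0 < m0 ∧ m0 ≤ 1 ∧ m0 ≤ m1 ∧
      m0 ≤ u ∧ m0 ≤ u ^ 2 := by
    refine ⟨min 1 (min m1 (min u (u ^ 2))), by positivity, min_le_left _ _, ?_, ?_, ?_⟩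
    · exact (min_le_right _ _).trans (min_le_left _ _)
    · exact (min_le_right _ _).trans ((min_le_right _ _).trans (min_le_left _ _))
    · exact (min_le_right _ _).trans ((min_le_right _ _).trans (min_le_right _ _))
  refine ⟨lam, g / 4, m0, u, hl, hl1, by positivity, by linarith, hm0, hm01,
    hu0, by linarith, ?_, ?_⟩
  · nlinarith
  intro v hv d hd hd0 m hm hmm ζ hζ
  have hs2 : m ^ (1 / 2 : ℝ) ≤ u := by
    calc m ^ (1 / 2 : ℝ) ≤ (u ^ 2) ^ (1 / 2 : ℝ) :=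
          Real.rpow_le_rpow (by positivity) (by linarith) (by norm_num)
      _ = u := by
          rw [← Real.rpow_natCast, ← Real.rpow_mul hu0.le]
          norm_num
  have hdm : (2 + A) ^ 2 * (d + m) ≤ 1 := by
    have : (2 + A) ^ 2 * (d + m) ≤ (2 + A) ^ 2 * (u + u) :=
      mul_le_mul_of_nonneg_left (by linarith) (by positivity)
    linarith
  have hfin : ∀ G : ℝ, g ≤ G → π / 2 - G + 300 * (2 + A) ^ 2 * (d + m ^ (1 / 2 : ℝ)) ≤
      (1 - g / 4) * (π / 2) := by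
    intro G hG
    have e1 : 300 * (2 + A) ^ 2 * (d + m ^ (1 / 2 : ℝ)) ≤ 300 * (2 + A) ^ 2 * (u + u) :=
      mul_le_mul_of_nonneg_left (by linarith) (by positivity)
    nlinarith [mul_pos hg hπ]
  rcases le_total ‖1 / ζ - 1‖ e2 with h | h
  · obtain ⟨H, g0, g1, g2', g3', g4, g5⟩ := case_good hW hv (hV v hv) hA hd hm hdm (by linarith) hl
      l1 l2 hζ h (R := 11 + ρ) (by linarith)
    exact ⟨0, le_rfl, zero_le_one, H, g0, g1, g2', g3', g4, g5.trans (hfin _ hg2)⟩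
  · obtain ⟨H, g0, g1, g2', g3', g4, g5⟩ := case_bad hW hv (hV v hv) hA hd hm hdm hl hν hν1 hνc l3
      l4 l5 hζ h (R := 11 + ρ) le_rfl
    exact ⟨ν₁, hν.le, by linarith, H, g0, g1, g2', g3', g4, g5.trans (hfin _ hg3)⟩

/-- scaling by a complex number -/
theorem int_div (f : ℂ → ℝ) {a : ℂ} (ha : a ≠ 0) :
    ∫ z, f (z / a) = ‖a‖ ^ 2 * ∫ w, f w := by
  have hr : 0 < ‖a‖ := norm_pos_iff.mpr ha
  obtain ⟨u, hu⟩ : ∃ u : Circle, (u : ℂ) = a⁻¹ * (‖a‖ : ℂ) := by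
    refine ⟨⟨a⁻¹ * (‖a‖ : ℂ), ?_⟩, rfl⟩
    refine mem_sphere_zero_iff_norm.mpr ?_
    rw [norm_mul, norm_inv, Complex.norm_real, norm_norm]
    exact inv_mul_cancel₀ hr.ne'
  have h1 : ∀ z : ℂ, z / a = rotation u (‖a‖⁻¹ • z) := by
    intro z
    rw [rotation_apply, hu, Complex.real_smul, Complex.ofReal_inv]
    have : (‖a‖ : ℂ) ≠ 0 := Complex.ofReal_ne_zero.mpr hr.ne'
    field_simp
  simp only [h1]
  have h2 := Measure.integral_comp_inv_smul_of_nonneg (volume : Measure ℂ)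
    (fun z => f (rotation u z)) hr.le
  rw [h2, Complex.finrank_real_complex, smul_eq_mul]
  congr 1
  exact (rotation u).measurePreserving.integral_comp
    (rotation u).toHomeomorph.measurableEmbedding f

theorem integrable_div {f : ℂ → ℝ} (hf : Integrable f) {a : ℂ} (ha : a ≠ 0) :
    Integrable fun z => f (z / a) := by
  have hr : 0 < ‖a‖ := norm_pos_iff.mpr ha
  obtain ⟨u, hu⟩ : ∃ u : Circle, (u : ℂ) = a⁻¹ * (‖a‖ : ℂ) := by
    refine ⟨⟨a⁻¹ * (‖a‖ : ℂ), ?_⟩, rfl⟩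
    refine mem_sphere_zero_iff_norm.mpr ?_
    rw [norm_mul, norm_inv, Complex.norm_real, norm_norm]
    exact inv_mul_cancel₀ hr.ne'
  have h1 : ∀ z : ℂ, z / a = rotation u (‖a‖⁻¹ • z) := by
    intro z
    rw [rotation_apply, hu, Complex.real_smul, Complex.ofReal_inv]
    have : (‖a‖ : ℂ) ≠ 0 := Complex.ofReal_ne_zero.mpr hr.ne'
    field_simp
  simp only [h1]
  have h2 : Integrable fun z => f (rotation u z) :=
    ((rotation u).measurePreserving.integrable_comp_emb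
      (rotation u).toHomeomorph.measurableEmbedding).mpr hf
  exact h2.comp_smul (inv_ne_zero hr.ne')

/-- the key inequality in the `z`-plane -/
theorem keyZ {k : ℂ → ℝ} {V : Set ℂ} {Lk ρ kinf c1 c2 e2 m1 : ℝ}
    (hW : Tw V k Lk ρ kinf c1 c2 e2 m1) (hV : ∀ v ∈ V, ‖v‖ = 1) {A : ℝ} (hA : 1 ≤ A) :
    ∃ b c0 m0 B d0 Cc : ℝ, 0 < b ∧ b ≤ 1 ∧ 0 < c0 ∧ c0 ≤ 1 / 2 ∧ 0 < m0 ∧ m0 ≤ 1 ∧ 0 < B ∧
      0 < d0 ∧ d0 ≤ 1 / 4 ∧ 1 ≤ Cc ∧
      ∀ om : ℂ, (starRingEnd ℂ) om ∈ V → ∀ d : ℝ, 0 < d → d ≤ d0 → ∀ m : ℝ, 0 < m → m ≤ m0 →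
      ∀ s : ℂ, s ≠ 0 → ∀ ζ : ℂ, ζ ≠ 0 →
      ∃ ν : ℝ, 0 ≤ ν ∧ ν ≤ B * m ∧ ∃ H : ℂ → ℝ, Measurable H ∧ Integrable H ∧ (∀ z, 0 ≤ H z) ∧
        (∀ z : ℂ, 2 * ‖s‖ ≤ ‖z‖ →
          Real.exp (d * ((om * s / z).re + A * (‖s‖ ^ 2 / ‖z‖ ^ 2))) *
              (1 - d * b * k ((z - s) / ζ)) -
            Real.exp (d * m) * (1 - d * b * k (z / ζ)) +
            ν * (d * b) * (k (z / ζ) - k (z / (om * s / (2 * m)))) ≤ d * H z) ∧
        (∀ z : ℂ, Cc * ‖s‖ / m ≤ ‖z‖ → H z = 0) ∧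
        ∫ z, H z ≤ (1 - c0) * (π * ‖s‖ ^ 2 / (4 * m)) := by
  obtain ⟨lam, c0, m0, d0, hl, hl1, hc0, hc01, hm0, hm01, hd0, hd01, hdA, key⟩ := keyW hW hV hA
  have hρ := hW.hρ
  refine ⟨lam, c0, m0, 2 / lam, d0, 11 + ρ, hl, hl1, hc0, hc01, hm0, hm01, by positivity, hd0, hd01,
    by linarith, ?_⟩
  intro om hom d hd hd1 m hm hm1 s hs ζ hζ
  set v := (starRingEnd ℂ) om with hv
  have hvn : ‖v‖ = 1 := hV v hom
  have homn : ‖om‖ = 1 := by
    rw [hv, Complex.norm_conj] at hvn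
    exact hvn
  have hov : om * v = 1 := by
    rw [hv, Complex.mul_conj, Complex.normSq_eq_norm_sq, homn]
    norm_num
  have hom0 : om ≠ 0 := by
    rw [← norm_pos_iff, homn]
    exact one_pos
  have hmc : (m : ℂ) ≠ 0 := Complex.ofReal_ne_zero.mpr hm.ne'
  set a : ℂ := om * s / (2 * m) with ha
  have ha0 : a ≠ 0 := div_ne_zero (mul_ne_zero hom0 hs) (mul_ne_zero two_ne_zero hmc)
  have han : ‖a‖ = ‖s‖ / (2 * m) := by
    rw [ha, norm_div, norm_mul, norm_mul, homn, one_mul, Complex.norm_real, Real.norm_eq_abs,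
      abs_of_pos hm, Complex.norm_ofNat]
  have hsn : 0 < ‖s‖ := norm_pos_iff.mpr hs
  have hsa : s = a * (((2 * m : ℝ) : ℂ) * v) := by
    rw [ha]
    push_cast
    field_simp
    exact hov.symm
  obtain ⟨ν₁, hν, hν1, H, g0, g1, g2, g3, g4, g5⟩ := key v hom d hd hd1 m hm hm1 (ζ / a)
    (div_ne_zero hζ ha0)
  refine ⟨ν₁ * (2 * m) / lam, by positivity, ?_, fun z => 2 * m * H (z / a), ?_, ?_, ?_, ?_, ?_, ?_⟩
  · have : ν₁ * (2 * m) / lam ≤ 1 * (2 * m) / lam := by gcongr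
    refine this.trans (le_of_eq ?_)
    ring
  · exact (g0.comp (measurable_id.div_const a)).const_mul _
  · exact (integrable_div g1 ha0).const_mul _
  · intro z
    have := g2 (z / a)
    positivity
  · intro z hz
    have hz0 : 0 < ‖z‖ := by linarith
    have hz0' : z ≠ 0 := norm_pos_iff.mp hz0
    set w := z / a with hw
    have hwn : ‖w‖ = 2 * m * ‖z‖ / ‖s‖ := by
      rw [hw, norm_div, han]
      field_simp
    have hw4 : 4 * m ≤ ‖w‖ := by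
      rw [hwn, le_div_iff₀ hsn]
      nlinarith
    have hw0 : 0 < ‖w‖ := by linarith
    have hw0' : w ≠ 0 := norm_pos_iff.mp hw0
    have e1 : z / ζ = w / (ζ / a) := by
      rw [hw]
      field_simp
    have e2 : (z - s) / ζ = (w - ((2 * m : ℝ) : ℂ) * v) / (ζ / a) := by
      rw [hw]
      nth_rewrite 1 [hsa]
      field_simp
    have e3 : (om * s / z).re + A * (‖s‖ ^ 2 / ‖z‖ ^ 2) =
        2 * m * hk w + A * (4 * m ^ 2 / ‖w‖ ^ 2) := by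
      have e4 : om * s / z = ((2 * m : ℝ) : ℂ) * w⁻¹ := by
        rw [hw, ha]
        push_cast
        field_simp
      have e5 : hk w = (w⁻¹).re := by
        rw [hk, Complex.inv_re, Complex.normSq_eq_norm_sq]
      rw [e4, Complex.re_ofReal_mul, e5, hwn]
      congr 2
      field_simp
      ring
    have h1 := pt hA hd (by nlinarith) hm hl.le hl1 (hW.bd (w / (ζ / a)))
      (hW.bd ((w - ((2 * m : ℝ) : ℂ) * v) / (ζ / a))) hw4
    have h2 := g4 w hw4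
    rw [e1, e2, e3]
    have h3 : ν₁ * (2 * m) / lam * (d * lam) * (k (w / (ζ / a)) - k w) =
        d * (2 * m) * mu k ν₁ (ζ / a) w := by
      rw [mu]
      field_simp
    rw [h3]
    have h4 : d * (2 * m) * (hk w - 1 / 2 + mu k ν₁ (ζ / a) w + sh k m lam v (ζ / a) w +
        er A d m w) ≤ d * (2 * m) * H w := mul_le_mul_of_nonneg_left h2 (by positivity)
    have h5 : d * (2 * m) * (hk w - 1 / 2 + lam / (2 * m) * (k (w / (ζ / a)) -
        k ((w - ((2 * m : ℝ) : ℂ) * v) / (ζ / a))) +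
        (2 * A * m / ‖w‖ ^ 2 + d * ((2 + A) ^ 2 / 2 * (1 / ‖w‖) + 1 / 2))) +
        d * (2 * m) * mu k ν₁ (ζ / a) w = d * (2 * m) * (hk w - 1 / 2 + mu k ν₁ (ζ / a) w +
          sh k m lam v (ζ / a) w + er A d m w) := by
      rw [sh, er]
      ring
    linarith
  · intro z hz
    have : H (z / a) = 0 := by
      refine g3 _ ?_
      rw [norm_div, han, le_div_iff₀ (by positivity)]
      rw [div_le_iff₀ hm] at hz
      have : (11 + ρ) * (‖s‖ / (2 * m)) = (11 + ρ) * ‖s‖ / (2 * m) := by ring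
      rw [this, div_le_iff₀ (by positivity)]
      nlinarith [norm_nonneg z]
    show 2 * m * H (z / a) = 0
    rw [this, mul_zero]
  · rw [integral_const_mul, int_div H ha0, han]
    calc 2 * m * ((‖s‖ / (2 * m)) ^ 2 * ∫ w, H w) ≤
        2 * m * ((‖s‖ / (2 * m)) ^ 2 * ((1 - c0) * (π / 2))) := by
          refine mul_le_mul_of_nonneg_left ?_ (by positivity)
          exact mul_le_mul_of_nonneg_left g5 (by positivity)
      _ = (1 - c0) * (π * ‖s‖ ^ 2 / (4 * m)) := by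
          field_simp
          ring

end Pool.Agent.Helper17.G5
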