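import Pool.Agent.Helper17.G5.Pt5
import Pool.Agent.Helper33.G5.Templ

/-!
# G5: the key inequality for complex exponents
-/

set_option autoImplicit false
set_option linter.unusedVariables false

namespace Pool.Agent.Helper17.G5

open MeasureTheory Set Metric
open scoped Real
open Pool.Agent.Helper17.G3
open Pool.Agent.Helper33.G5 (Tw)

theorem int_sub_Dk {f : ℂ → ℝ} (hf : Measurable f) (hf1 : ∀ y, |f y| ≤ 1) :
    IntegrableOn f Dk := by
  refine Integrable.mono' (g := fun _ => (1 : ℝ))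
    (integrableOn_const (ne_top_of_le_ne_top vol_Bt (measure_mono Dk_sub))) hf.aestronglyMeasurable
    (Filter.Eventually.of_forall fun w => ?_)
  rw [Real.norm_eq_abs]
  exact hf1 w

theorem vol_Dk : (volume Dk).toReal = π := by
  rw [Dk, Complex.volume_ball, ENNReal.toReal_mul, ENNReal.toReal_pow,
    ENNReal.toReal_ofReal (by norm_num)]
  norm_num

/-- the shift perturbation -/
noncomputable def sh (k : ℂ → ℝ) (m lam : ℝ) (v ζ : ℂ) (y : ℂ) : ℝ :=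
  lam / (2 * m) * (k (y / ζ) - k ((y - ((2 * m : ℝ) : ℂ) * v) / ζ))

/-- the multiplier perturbation -/
noncomputable def mu (k : ℂ → ℝ) (ν₁ : ℝ) (ζ : ℂ) (y : ℂ) : ℝ := ν₁ * (k (y / ζ) - k y)

/-- the error in `pt` -/
noncomputable def er (A d m : ℝ) (y : ℂ) : ℝ :=
  2 * A * m / ‖y‖ ^ 2 + d * ((2 + A) ^ 2 / 2 * (1 / ‖y‖) + 1 / 2)

/-- the conclusion in the `w`-plane -/
def Con (k : ℂ → ℝ) (A d m lam ν₁ : ℝ) (v ζ : ℂ) (R G : ℝ) : Prop :=
  ∃ H : ℂ → ℝ, Measurable H ∧ Integrable H ∧ (∀ y, 0 ≤ H y) ∧ (∀ y, R ≤ ‖y‖ → H y = 0) ∧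
    (∀ y : ℂ, 4 * m ≤ ‖y‖ → hk y - 1 / 2 + mu k ν₁ ζ y + sh k m lam v ζ y + er A d m y ≤ H y) ∧
    ∫ y, H y ≤ π / 2 - G + 300 * (2 + A) ^ 2 * (d + m ^ (1 / 2 : ℝ))

theorem meas_sh {k : ℂ → ℝ} (hk : Measurable k) (m lam : ℝ) (v ζ : ℂ) :
    Measurable (sh k m lam v ζ) := by
  unfold sh
  fun_prop

theorem meas_mu {k : ℂ → ℝ} (hk : Measurable k) (ν₁ : ℝ) (ζ : ℂ) : Measurable (mu k ν₁ ζ) := by
  unfold mu
  fun_prop

theorem lip_v {k : ℂ → ℝ} {Lk : ℝ} (hlip : ∀ z z', |k z - k z'| ≤ Lk * ‖z - z'‖) {m : ℝ}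
    (hm : 0 < m) {v : ℂ} (hv : ‖v‖ = 1) (ζ y : ℂ) :
    |k (y / ζ) - k ((y - ((2 * m : ℝ) : ℂ) * v) / ζ)| ≤ Lk * (2 * m * ‖1 / ζ‖) := by
  refine (hlip _ _).trans (le_of_eq ?_)
  have : y / ζ - (y - ((2 * m : ℝ) : ℂ) * v) / ζ = ((2 * m : ℝ) : ℂ) * v * (1 / ζ) := by ring
  rw [this, norm_mul, norm_mul, Complex.norm_real, Real.norm_eq_abs,
    abs_of_pos (by positivity : 0 < 2 * m), hv, mul_one]

theorem sh_le {k : ℂ → ℝ} {Lk : ℝ} (hlip : ∀ z z', |k z - k z'| ≤ Lk * ‖z - z'‖) {m lam : ℝ}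
    (hm : 0 < m) (hl : 0 < lam) {v : ℂ} (hv : ‖v‖ = 1) (ζ y : ℂ) :
    |sh k m lam v ζ y| ≤ lam * Lk * ‖1 / ζ‖ := by
  have h1 := lip_v hlip hm hv ζ y
  unfold sh
  rw [abs_mul, abs_of_pos (by positivity : 0 < lam / (2 * m))]
  calc _ ≤ lam / (2 * m) * (Lk * (2 * m * ‖1 / ζ‖)) := mul_le_mul_of_nonneg_left h1 (by positivity)
    _ = _ := by field_simp

/-- bounded case -/
theorem case_bdd {k : ℂ → ℝ} (hkm : Measurable k) {A d m lam ν₁ ν I : ℝ}
    (hA : 1 ≤ A) (hd : 0 < d) (hm : 0 < m) (hdm : (2 + A) ^ 2 * (d + m) ≤ 1) (v ζ : ℂ)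
    (hν : 0 ≤ ν) (hν1 : ν ≤ 1 / 8) (hb : ∀ y, |mu k ν₁ ζ y + sh k m lam v ζ y| ≤ ν)
    (hI : ∫ y in Dk, (mu k ν₁ ζ y + sh k m lam v ζ y) ≤ I) {R : ℝ} (hR : 10 < R) :
    Con k A d m lam ν₁ v ζ R (-(I + 10 * π * ν ^ 2)) := by
  obtain ⟨H, h0, h1, h2, h3, h4, h5⟩ := bound5 hA hd hm hdm
    ((meas_mu hkm ν₁ ζ).add (meas_sh hkm m lam v ζ)) hν hν1 hb (c := fun _ => 0) measurable_const
    (integrable_zero _ _ _) (fun _ => le_rfl) (Kc := 0) (by simp)
  refine ⟨H, h0, h1, h2, fun y hy => h3 y (by linarith), fun y hy => ?_, ?_⟩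
  · have := h4 y hy
    simp only [Pi.add_apply] at this
    unfold er
    linarith
  · simp only [Pi.add_apply] at h5
    linarith

/-- good templates -/
theorem case_good {k : ℂ → ℝ} {V : Set ℂ} {Lk ρ kinf c1 c2 e2 m1 : ℝ}
    (hk : Tw V k Lk ρ kinf c1 c2 e2 m1) {v : ℂ} (hv : v ∈ V) (hv1 : ‖v‖ = 1)
    {A d m lam : ℝ} (hA : 1 ≤ A) (hd : 0 < d) (hm : 0 < m) (hdm : (2 + A) ^ 2 * (d + m) ≤ 1)
    (hmm : m ≤ m1) (hl : 0 < lam) (hlL : lam * Lk ≤ 1 / 12)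
    (hlc : 90 * π * (lam * Lk ^ 2) ≤ c2) {ζ : ℂ} (hζ : ζ ≠ 0) (hg : ‖1 / ζ - 1‖ ≤ e2)
    {R : ℝ} (hR : 10 < R) :
    Con k A d m lam 0 v ζ R (lam * c2 / 4) := by
  have hz : ‖1 / ζ‖ ≤ 3 / 2 := by
    have h1 : 1 / ζ = (1 / ζ - 1) + 1 := by ring
    have h2 := norm_add_le (1 / ζ - 1) 1
    rw [← h1, norm_one] at h2
    linarith [hk.he2']
  have hLk := hk.hL
  have hmu : ∀ y, mu k 0 ζ y = 0 := fun y => by simp [mu]
  have hb : ∀ y, |mu k 0 ζ y + sh k m lam v ζ y| ≤ 3 / 2 * (lam * Lk) := by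
    intro y
    rw [hmu, zero_add]
    calc _ ≤ lam * Lk * ‖1 / ζ‖ := sh_le hk.lip hm hl hv1 ζ y
      _ ≤ lam * Lk * (3 / 2) := mul_le_mul_of_nonneg_left hz (by positivity)
      _ = _ := by ring
  have hI : ∫ y in Dk, (mu k 0 ζ y + sh k m lam v ζ y) ≤ -(lam * c2 / 2) := by
    have h1 := hk.F2 v hv ζ hζ hg m hm hmm
    have h2 : ∀ y : ℂ, mu k 0 ζ y + sh k m lam v ζ y =
        -(lam / (2 * m)) * (k ((y - ((2 * m : ℝ) : ℂ) * v) / ζ) - k (y / ζ)) := fun y => by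
      rw [hmu, sh]
      ring
    simp only [h2]
    rw [integral_const_mul]
    have h3 : lam / (2 * m) * (c2 * m) ≤ lam / (2 * m) *
        ∫ z in ball (1 : ℂ) 1, (k ((z - ((2 * m : ℝ) : ℂ) * v) / ζ) - k (z / ζ)) :=
      mul_le_mul_of_nonneg_left h1 (by positivity)
    have h4 : lam / (2 * m) * (c2 * m) = lam * c2 / 2 := by field_simp
    have h5 : Dk = ball (1 : ℂ) 1 := rfl
    rw [h5]
    linarith
  obtain ⟨H, h0, h1, h2, h3, h4, h5⟩ := case_bdd hk.meas hA hd hm hdm v ζ (ν := 3 / 2 * (lam * Lk))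
    (by positivity) (by linarith) hb hI hR
  refine ⟨H, h0, h1, h2, h3, h4, h5.trans ?_⟩
  have h6 : 10 * π * (3 / 2 * (lam * Lk)) ^ 2 = lam / 4 * (90 * π * (lam * Lk ^ 2)) := by ring
  have h7 : lam / 4 * (90 * π * (lam * Lk ^ 2)) ≤ lam / 4 * c2 :=
    mul_le_mul_of_nonneg_left hlc (by positivity)
  linarith

/-- bad templates -/
theorem case_bad {k : ℂ → ℝ} {V : Set ℂ} {Lk ρ kinf c1 c2 e2 m1 : ℝ}
    (hk : Tw V k Lk ρ kinf c1 c2 e2 m1) {v : ℂ} (hv : v ∈ V) (hv1 : ‖v‖ = 1)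
    {A d m lam ν₁ : ℝ} (hA : 1 ≤ A) (hd : 0 < d) (hm : 0 < m) (hdm : (2 + A) ^ 2 * (d + m) ≤ 1)
    (hl : 0 < lam) (hν : 0 < ν₁) (hν1 : ν₁ ≤ 1 / 32)
    (hνc : 640 * π * ν₁ ≤ c1) (hlL : lam * Lk ≤ 2 * ν₁) (hlc : 4 * π * (lam * Lk) ≤ ν₁ * c1)
    (hlC : 16 * π * (lam * Lk * (1 + 2 * ρ) ^ 2) ≤ ν₁ * c1)
    {ζ : ℂ} (hζ : ζ ≠ 0) (hg : e2 ≤ ‖1 / ζ - 1‖) {R : ℝ} (hR : 11 + ρ ≤ R) :
    Con k A d m lam ν₁ v ζ R (ν₁ * c1 / 2) := by
  have hLk := hk.hL
  have hρ := hk.hρ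
  have hc1 := hk.hc1
  have hπ := Real.pi_pos
  have hζ0 : 0 < ‖ζ‖ := norm_pos_iff.mpr hζ
  have hF1 := hk.F1 ζ hζ hg
  have hm1 : m ≤ 1 / 2 := by nlinarith
  have hmu2 : ∀ y, |mu k ν₁ ζ y| ≤ 2 * ν₁ := by
    intro y
    have h1 := abs_sub (k (y / ζ)) (k y)
    have h2 : |k (y / ζ) - k y| ≤ 2 := by linarith [hk.bd (y / ζ), hk.bd y]
    unfold mu
    rw [abs_mul, abs_of_pos hν]
    nlinarith
  have i0 : IntegrableOn (fun y => k (y / ζ)) Dk :=
    int_sub_Dk (hk.meas.comp (measurable_id.div_const ζ)) fun y => hk.bd _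
  have i1 : IntegrableOn k Dk := int_sub_Dk hk.meas hk.bd
  have i2 : IntegrableOn (fun y => k ((y - ((2 * m : ℝ) : ℂ) * v) / ζ)) Dk :=
    int_sub_Dk
      (hk.meas.comp ((measurable_id.sub_const _).div_const ζ)) fun y => hk.bd _
  have hI1 : ∫ y in Dk, mu k ν₁ ζ y ≤ -(ν₁ * c1) := by
    have h2 : ν₁ * ∫ y in Dk, (k (y / ζ) - k y) ≤ ν₁ * -c1 :=
      mul_le_mul_of_nonneg_left hF1 hν.le
    unfold mu
    rw [integral_const_mul]
    linarith
  have i01 : IntegrableOn (mu k ν₁ ζ) Dk := (i0.sub i1).const_mul _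
  have i02 : IntegrableOn (sh k m lam v ζ) Dk := (i0.sub i2).const_mul _
  rcases le_or_gt 1 ‖ζ‖ with h1 | h1
  · -- bounded case
    have hz : ‖1 / ζ‖ ≤ 1 := by
      rw [norm_div, norm_one, div_le_one hζ0]
      exact h1
    have hb2 : ∀ y, |sh k m lam v ζ y| ≤ lam * Lk := by
      intro y
      calc _ ≤ lam * Lk * ‖1 / ζ‖ := sh_le hk.lip hm hl hv1 ζ y
        _ ≤ lam * Lk * 1 := mul_le_mul_of_nonneg_left hz (by positivity)
        _ = _ := by ring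
    have hb : ∀ y, |mu k ν₁ ζ y + sh k m lam v ζ y| ≤ 4 * ν₁ := by
      intro y
      refine (abs_add_le _ _).trans ?_
      linarith [hb2 y, hmu2 y]
    have hI : ∫ y in Dk, (mu k ν₁ ζ y + sh k m lam v ζ y) ≤ -(ν₁ * c1) + lam * Lk * π := by
      rw [integral_add i01 i02]
      have h3 : ∫ y in Dk, sh k m lam v ζ y ≤ ∫ y in Dk, lam * Lk := by
        refine integral_mono i02
          (integrableOn_const (ne_top_of_le_ne_top vol_Bt (measure_mono Dk_sub))) fun y => ?_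
        exact (le_abs_self _).trans (hb2 y)
      rw [setIntegral_const, smul_eq_mul, measureReal_def, vol_Dk] at h3
      linarith
    obtain ⟨H, g0, g1, g2, g3, g4, g5⟩ := case_bdd hk.meas hA hd hm hdm v ζ (ν := 4 * ν₁)
      (by positivity) (by linarith) hb hI (R := R) (by linarith)
    refine ⟨H, g0, g1, g2, g3, g4, g5.trans ?_⟩
    have h5 : 10 * π * (4 * ν₁) ^ 2 = ν₁ / 4 * (640 * π * ν₁) := by ring
    have h6 : ν₁ / 4 * (640 * π * ν₁) ≤ ν₁ / 4 * c1 := mul_le_mul_of_nonneg_left hνc (by positivity)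
    linarith
  · -- small scale
    set p : ℂ := ((2 * m : ℝ) : ℂ) * v with hp
    have hpn : ‖p‖ = 2 * m := by
      rw [hp, norm_mul, hv1, mul_one, Complex.norm_real, Real.norm_eq_abs,
        abs_of_pos (by positivity)]
    set S : Set ℂ := ball 0 (ρ * ‖ζ‖) ∪ ball p (ρ * ‖ζ‖) with hS
    have hSm : MeasurableSet S := measurableSet_ball.union measurableSet_ball
    have hSv : volume S ≤ ENNReal.ofReal (2 * (π * (ρ * ‖ζ‖) ^ 2)) := by
      refine (measure_union_le _ _).trans ?_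
      rw [Complex.volume_ball, Complex.volume_ball, ← ENNReal.ofReal_pow (by positivity),
        ← ENNReal.ofReal_coe_nnreal, NNReal.coe_real_pi, ← ENNReal.ofReal_mul (by positivity),
        ← ENNReal.ofReal_add (by positivity) (by positivity)]
      refine ENNReal.ofReal_le_ofReal ?_
      linarith
    have hSf : volume S ≠ ⊤ := ne_top_of_le_ne_top ENNReal.ofReal_ne_top hSv
    have hout : ∀ y, y ∉ S → sh k m lam v ζ y = 0 := by
      intro y hy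
      rw [hS, mem_union, not_or, mem_ball, mem_ball, dist_eq_norm, dist_eq_norm, not_lt, not_lt,
        sub_zero] at hy
      unfold sh
      rw [hk.far (y / ζ), hk.far ((y - ((2 * m : ℝ) : ℂ) * v) / ζ), sub_self, mul_zero]
      · rw [norm_div, le_div_iff₀ hζ0]
        exact hy.2
      · rw [norm_div, le_div_iff₀ hζ0]
        exact hy.1
    set c : ℂ → ℝ := fun y => |sh k m lam v ζ y| with hc
    have hcle : ∀ y, c y ≤ S.indicator (fun _ => lam * Lk / ‖ζ‖) y := by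
      intro y
      by_cases hy : y ∈ S
      · rw [indicator_of_mem hy]
        refine (sh_le hk.lip hm hl hv1 ζ y).trans (le_of_eq ?_)
        rw [norm_div, norm_one]
        ring
      · rw [indicator_of_notMem hy, hc]
        simp only [hout y hy, abs_zero, le_refl]
    have hc0 : ∀ y, 0 ≤ c y := fun y => abs_nonneg _
    have iM : Integrable (S.indicator fun _ : ℂ => lam * Lk / ‖ζ‖) :=
      (integrableOn_const hSf).integrable_indicator hSm
    have hcm : Measurable c := (meas_sh hk.meas m lam v ζ).abs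
    have ic : Integrable c := by
      refine Integrable.mono' iM hcm.aestronglyMeasurable
        (Filter.Eventually.of_forall fun y => ?_)
      rw [Real.norm_eq_abs, abs_of_nonneg (hc0 y)]
      exact hcle y
    have hcK : ∫ y, c y ≤ ν₁ * c1 / 4 := by
      have g1 : ∫ y, c y ≤ ∫ y, S.indicator (fun _ => lam * Lk / ‖ζ‖) y :=
        integral_mono ic iM hcle
      rw [integral_indicator hSm, setIntegral_const, smul_eq_mul, measureReal_def] at g1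
      have g2 : (volume S).toReal ≤ 2 * (π * (ρ * ‖ζ‖) ^ 2) :=
        ENNReal.toReal_le_of_le_ofReal (by positivity) hSv
      have g3 : (volume S).toReal * (lam * Lk / ‖ζ‖) ≤
          2 * (π * (ρ * ‖ζ‖) ^ 2) * (lam * Lk / ‖ζ‖) :=
        mul_le_mul_of_nonneg_right g2 (by positivity)
      have g4 : 2 * (π * (ρ * ‖ζ‖) ^ 2) * (lam * Lk / ‖ζ‖) = 2 * π * (lam * Lk * ρ ^ 2) * ‖ζ‖ := by
        field_simp
      have g5 : 2 * π * (lam * Lk * ρ ^ 2) * ‖ζ‖ ≤ 2 * π * (lam * Lk * ρ ^ 2) * 1 :=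
        mul_le_mul_of_nonneg_left h1.le (by positivity)
      have g6 : lam * Lk * ρ ^ 2 ≤ lam * Lk * (1 + 2 * ρ) ^ 2 := by
        refine mul_le_mul_of_nonneg_left ?_ (by positivity)
        nlinarith
      have g7 : 2 * π * (lam * Lk * ρ ^ 2) ≤ 2 * π * (lam * Lk * (1 + 2 * ρ) ^ 2) :=
        mul_le_mul_of_nonneg_left g6 (by positivity)
      have g8 : 0 ≤ 2 * π * (lam * Lk * (1 + 2 * ρ) ^ 2) := by positivity
      linarith
    obtain ⟨H, g0, g1, g2, g3, g4, g5⟩ := bound5 hA hd hm hdm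
      (meas_mu hk.meas ν₁ ζ) (ν := 2 * ν₁) (by positivity) (by linarith) hmu2 hcm ic hc0 hcK
    refine ⟨H, g0, g1, g2, ?_, ?_, ?_⟩
    · intro y hy
      rw [g3 y (by linarith)]
      have : y ∉ S := by
        rw [hS, mem_union, not_or, mem_ball, mem_ball, dist_eq_norm, dist_eq_norm, not_lt, not_lt,
          sub_zero]
        have e1 : ρ * ‖ζ‖ ≤ ρ := by nlinarith
        have e2 := norm_sub_norm_le y p
        constructor
        · linarith
        · rw [hpn] at e2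
          linarith
      rw [hc]
      simp only [hout y this, abs_zero]
    · intro y hy
      have e1 := g4 y hy
      have e2 : sh k m lam v ζ y ≤ c y := le_abs_self _
      unfold er
      linarith
    · refine g5.trans ?_
      have h5 : 10 * π * (2 * ν₁) ^ 2 = ν₁ / 16 * (640 * π * ν₁) := by ring
      have h6 : ν₁ / 16 * (640 * π * ν₁) ≤ ν₁ / 16 * c1 :=
        mul_le_mul_of_nonneg_left hνc (by positivity)
      nlinarith [mul_pos hν hc1]

end Pool.Agent.Helper17.G5
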