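import Pool.Agent.Helper17.G3.Bound

/-!
# G5: the linearised density
-/

set_option autoImplicit false
set_option linter.unusedVariables false

namespace Pool.Agent.Helper17.G5

open MeasureTheory Set Metric
open scoped Real
open Pool.Agent.Helper17.G3

theorem exp_quad {x : ℝ} (hx : |x| ≤ 1) : Real.exp x ≤ 1 + x + x ^ 2 := by
  have := Real.abs_exp_sub_one_sub_id_le hx
  have h2 := (abs_le.mp this).2
  linarith

/-- the pointwise linearisation -/
theorem pt {A d m lam : ℝ} (hA : 1 ≤ A) (hd : 0 < d) (hd1 : d * (2 + A) ≤ 1) (hm : 0 < m)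
    (hl : 0 ≤ lam) (hl1 : lam ≤ 1) {k0 k1 : ℝ} (h0 : |k0| ≤ 1) (h1 : |k1| ≤ 1) {w : ℂ}
    (hw : 4 * m ≤ ‖w‖) :
    Real.exp (d * (2 * m * hk w + A * (4 * m ^ 2 / ‖w‖ ^ 2))) * (1 - d * lam * k1) -
      Real.exp (d * m) * (1 - d * lam * k0) ≤
    d * (2 * m) * (hk w - 1 / 2 + lam / (2 * m) * (k0 - k1) +
      (2 * A * m / ‖w‖ ^ 2 + d * ((2 + A) ^ 2 / 2 * (1 / ‖w‖) + 1 / 2))) := by
  have hw0 : 0 < ‖w‖ := by linarith
  have hw1 : 0 < 1 / ‖w‖ := by positivity
  set X := 2 * m * hk w + A * (4 * m ^ 2 / ‖w‖ ^ 2) with hX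
  have hk1 : |hk w| ≤ 1 / ‖w‖ := by
    have := abs_hk_le w
    rwa [Real.rpow_neg_one, ← one_div] at this
  have hm1 : m * (1 / ‖w‖) ≤ 1 / 4 := by
    rw [mul_one_div, div_le_iff₀ hw0]
    linarith
  have hX1 : |X| ≤ (2 + A) * (m * (1 / ‖w‖)) := by
    have e1 : |2 * m * hk w| ≤ 2 * m * (1 / ‖w‖) := by
      rw [abs_mul, abs_of_pos (by positivity : 0 < 2 * m)]
      exact mul_le_mul_of_nonneg_left hk1 (by positivity)
    have e2 : |A * (4 * m ^ 2 / ‖w‖ ^ 2)| ≤ A * (m * (1 / ‖w‖)) := by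
      rw [abs_of_nonneg (by positivity)]
      have e3 : 4 * m ^ 2 / ‖w‖ ^ 2 = 4 * (m * (1 / ‖w‖)) * (m * (1 / ‖w‖)) := by
        field_simp
      rw [e3]
      have e4 : 0 ≤ m * (1 / ‖w‖) := by positivity
      refine mul_le_mul_of_nonneg_left ?_ (by linarith)
      nlinarith
    have := abs_add_le (2 * m * hk w) (A * (4 * m ^ 2 / ‖w‖ ^ 2))
    rw [← hX] at this
    linarith
  set q := m * (1 / ‖w‖) with hq
  have hq0 : 0 < q := by positivity
  have hdX : |d * X| ≤ 1 := by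
    rw [abs_mul, abs_of_pos hd]
    calc d * |X| ≤ d * ((2 + A) * q) := mul_le_mul_of_nonneg_left hX1 hd.le
      _ = d * (2 + A) * q := by ring
      _ ≤ 1 * q := mul_le_mul_of_nonneg_right hd1 hq0.le
      _ ≤ 1 := by linarith
  have hE := exp_quad hdX
  have hdl : 0 ≤ d * lam := by positivity
  have hd2 : d ≤ 1 / 3 := by nlinarith
  have hdl1 : d * lam ≤ d := by nlinarith
  have h0' := abs_le.mp h0
  have h1' := abs_le.mp h1
  have hf1 : 0 ≤ 1 - d * lam * k1 := by nlinarith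
  have hf0 : 0 ≤ 1 - d * lam * k0 := by nlinarith
  have hf2 : 1 - d * lam * k1 ≤ 2 := by nlinarith
  -- first term
  have t1 : Real.exp (d * X) * (1 - d * lam * k1) ≤
      1 + d * X - d * lam * k1 + d ^ 2 * ((2 + A) ^ 2 * q) := by
    have e1 : Real.exp (d * X) * (1 - d * lam * k1) ≤
        (1 + d * X + (d * X) ^ 2) * (1 - d * lam * k1) := mul_le_mul_of_nonneg_right hE hf1
    have e2 : (1 + d * X + (d * X) ^ 2) * (1 - d * lam * k1) =
        1 + d * X - d * lam * k1 + (d ^ 2 * X ^ 2 * (1 - d * lam * k1) + d ^ 2 * (lam * (-(X * k1)))) := by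
      ring
    have e3 : d ^ 2 * X ^ 2 * (1 - d * lam * k1) ≤ d ^ 2 * X ^ 2 * 2 :=
      mul_le_mul_of_nonneg_left hf2 (by positivity)
    have e4 : lam * (-(X * k1)) ≤ |X| := by
      have e5 : -(X * k1) ≤ |X| := by
        refine (neg_le_abs _).trans ?_
        rw [abs_mul]
        exact mul_le_of_le_one_right (abs_nonneg _) h1
      have e6 : 0 ≤ |X| := abs_nonneg _
      nlinarith [abs_nonneg X]
    have e7 : X ^ 2 ≤ |X| * ((2 + A) / 4) := by
      have e8 : |X| ≤ (2 + A) / 4 := by nlinarith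
      rw [← sq_abs, pow_two]
      exact mul_le_mul_of_nonneg_left e8 (abs_nonneg _)
    have e9 : X ^ 2 * 2 + |X| ≤ (2 + A) ^ 2 * q := by
      have : X ^ 2 * 2 + |X| ≤ |X| * (2 + A) := by nlinarith [abs_nonneg X]
      refine this.trans ?_
      calc |X| * (2 + A) ≤ (2 + A) * q * (2 + A) :=
            mul_le_mul_of_nonneg_right hX1 (by linarith)
        _ = _ := by ring
    have hd22 : 0 ≤ d ^ 2 := by positivity
    calc _ ≤ 1 + d * X - d * lam * k1 + (d ^ 2 * X ^ 2 * (1 - d * lam * k1) +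
          d ^ 2 * (lam * (-(X * k1)))) := e1.trans_eq e2
      _ ≤ 1 + d * X - d * lam * k1 + (d ^ 2 * X ^ 2 * 2 + d ^ 2 * |X|) := by
          have := mul_le_mul_of_nonneg_left e4 hd22
          linarith
      _ = 1 + d * X - d * lam * k1 + d ^ 2 * (X ^ 2 * 2 + |X|) := by ring
      _ ≤ _ := by
          have := mul_le_mul_of_nonneg_left e9 hd22
          linarith
  -- second term
  have t2 : 1 + d * m - d * lam * k0 - d ^ 2 * m ≤ Real.exp (d * m) * (1 - d * lam * k0) := by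
    have e1 : (1 + d * m) * (1 - d * lam * k0) ≤ Real.exp (d * m) * (1 - d * lam * k0) := by
      refine mul_le_mul_of_nonneg_right ?_ hf0
      have := Real.add_one_le_exp (d * m)
      linarith
    have e2 : (1 + d * m) * (1 - d * lam * k0) = 1 + d * m - d * lam * k0 -
        d ^ 2 * m * (lam * k0) := by ring
    have e3 : lam * k0 ≤ 1 := by nlinarith
    have e4 : d ^ 2 * m * (lam * k0) ≤ d ^ 2 * m * 1 := mul_le_mul_of_nonneg_left e3 (by positivity)
    linarith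
  have e1 : d * (2 * m) * (hk w - 1 / 2 + lam / (2 * m) * (k0 - k1) +
      (2 * A * m / ‖w‖ ^ 2 + d * ((2 + A) ^ 2 / 2 * (1 / ‖w‖) + 1 / 2))) =
      d * X - d * m + d * lam * (k0 - k1) + d ^ 2 * ((2 + A) ^ 2 * q) + d ^ 2 * m := by
    rw [hX, hq]
    field_simp
    ring
  rw [e1]
  linarith

/-- the error function -/
noncomputable def e5 (A d m : ℝ) (w : ℂ) : ℝ :=
  A * m ^ (1 / 2 : ℝ) * ‖w - 0‖ ^ (-(3 / 2) : ℝ) +
    d * ((2 + A) ^ 2 / 2 * ‖w - 0‖ ^ (-1 : ℝ) + 1 / 2)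

theorem e5_nonneg {A d m : ℝ} (hA : 1 ≤ A) (hd : 0 < d) (hm : 0 < m) (w : ℂ) : 0 ≤ e5 A d m w := by
  unfold e5
  positivity

theorem measurable_e5 (A d m : ℝ) : Measurable (e5 A d m) := by
  unfold e5
  fun_prop

theorem int_e5 {A d m : ℝ} : IntegrableOn (e5 A d m) Bt := by
  have h1 := int_Bt (a := 3 / 2) (by norm_num) (by norm_num) 0
  have h3 := int_Bt (a := 1) (by norm_num) (by norm_num) 0
  exact (h1.const_mul _).add (((h3.const_mul _).add (integrableOn_const vol_Bt)).const_mul _)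

theorem le_e5 {A d m : ℝ} (hA : 1 ≤ A) (hd : 0 < d) (hm : 0 < m) {w : ℂ} (hw : 4 * m ≤ ‖w‖) :
    2 * A * m / ‖w‖ ^ 2 + d * ((2 + A) ^ 2 / 2 * (1 / ‖w‖) + 1 / 2) ≤ e5 A d m w := by
  have hw0 : 0 < ‖w‖ := by linarith
  unfold e5
  rw [sub_zero, Real.rpow_neg_one, one_div ‖w‖]
  have h1 : 2 * A * m / ‖w‖ ^ 2 ≤ A * m ^ (1 / 2 : ℝ) * ‖w‖ ^ (-(3 / 2) : ℝ) := by
    have e1 : (2 : ℝ) * m ^ (1 / 2 : ℝ) ≤ ‖w‖ ^ (1 / 2 : ℝ) := by
      calc (2 : ℝ) * m ^ (1 / 2 : ℝ) = (4 * m) ^ (1 / 2 : ℝ) := by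
            rw [Real.mul_rpow (by norm_num) hm.le]
            congr 1
            rw [show (4 : ℝ) = 2 ^ (2 : ℝ) by norm_num, ← Real.rpow_mul (by norm_num)]
            norm_num
        _ ≤ _ := Real.rpow_le_rpow (by positivity) hw (by norm_num)
    have e2 : m = m ^ (1 / 2 : ℝ) * m ^ (1 / 2 : ℝ) := by
      rw [← Real.rpow_add hm]
      norm_num
    have e3 : ‖w‖ ^ (-(3 / 2) : ℝ) * ‖w‖ ^ 2 = ‖w‖ ^ (1 / 2 : ℝ) := by
      rw [← Real.rpow_natCast, ← Real.rpow_add hw0]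
      norm_num
    have e4 : 0 < m ^ (1 / 2 : ℝ) := Real.rpow_pos_of_pos hm _
    rw [div_le_iff₀ (by positivity), mul_assoc (A * m ^ (1 / 2 : ℝ)), e3]
    calc 2 * A * m = A * m ^ (1 / 2 : ℝ) * (2 * m ^ (1 / 2 : ℝ)) := by
          nth_rewrite 1 [e2]
          ring
      _ ≤ _ := mul_le_mul_of_nonneg_left e1 (by positivity)
  linarith

theorem e5_le {A d m : ℝ} (hA : 1 ≤ A) (hd : 0 < d) (hm : 0 < m) :
    ∫ w in Bt, e5 A d m w ≤ 300 * (2 + A) ^ 2 * (d + m ^ (1 / 2 : ℝ)) := by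
  have h1 := int_Bt (a := 3 / 2) (by norm_num) (by norm_num) 0
  have h3 := int_Bt (a := 1) (by norm_num) (by norm_num) 0
  have l1 := le_Bt (a := 3 / 2) (by norm_num) (by norm_num) 0
  have l3 := le_Bt (a := 1) (by norm_num) (by norm_num) 0
  have ic : IntegrableOn (fun _ : ℂ => (1 / 2 : ℝ)) Bt := integrableOn_const vol_Bt
  have i3 : IntegrableOn (fun w : ℂ => (2 + A) ^ 2 / 2 * ‖w - 0‖ ^ (-1 : ℝ) + 1 / 2) Bt :=
    (h3.const_mul _).add ic
  have e1 : ∫ w in Bt, e5 A d m w = A * m ^ (1 / 2 : ℝ) * (∫ w in Bt, ‖w - 0‖ ^ (-(3 / 2) : ℝ)) +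
      d * ((2 + A) ^ 2 / 2 * (∫ w in Bt, ‖w - 0‖ ^ (-1 : ℝ)) + ∫ w in Bt, (1 / 2 : ℝ)) := by
    unfold e5
    rw [integral_add (h1.const_mul _) (i3.const_mul _), integral_const_mul, integral_const_mul,
      integral_add (h3.const_mul _) ic, integral_const_mul]
  have v1 : ∫ w in Bt, (1 / 2 : ℝ) = 50 * π := by
    rw [setIntegral_const, smul_eq_mul, measureReal_def, Bt, Complex.volume_closedBall,
      ENNReal.toReal_mul, ENNReal.toReal_pow, ENNReal.toReal_ofReal (by norm_num)]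
    have : (10 : ℝ) ^ 2 * (NNReal.pi : ENNReal).toReal = 100 * π := by
      norm_num
    rw [this]
    ring
  have hπ : π ≤ 3.1416 := Real.pi_lt_d4.le
  have hπ0 := Real.pi_pos
  have r1 : (10 : ℝ) ^ (2 - 3 / 2 : ℝ) ≤ 3.2 := by
    have h7 : ((10 : ℝ) ^ (2 - 3 / 2 : ℝ)) ^ 2 ≤ 3.2 ^ 2 := by
      rw [← Real.rpow_natCast, ← Real.rpow_mul (by norm_num)]
      norm_num
    exact le_of_sq_le_sq h7 (by norm_num)
  have r3 : (10 : ℝ) ^ (2 - 1 : ℝ) = 10 := by norm_num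
  have b1 : 2 * π / (2 - 3 / 2) * (10 : ℝ) ^ (2 - 3 / 2 : ℝ) ≤ 42 := by
    have : 2 * π / (2 - 3 / 2) = 4 * π := by ring
    rw [this]
    nlinarith
  have b3 : 2 * π / (2 - 1) * (10 : ℝ) ^ (2 - 1 : ℝ) ≤ 63 := by
    rw [r3]
    have : 2 * π / (2 - 1) = 2 * π := by ring
    rw [this]
    linarith
  have hm2 : 0 < m ^ (1 / 2 : ℝ) := Real.rpow_pos_of_pos hm _
  have hA2 : A ≤ (2 + A) ^ 2 := by nlinarith
  have hA9 : 9 ≤ (2 + A) ^ 2 := by nlinarith
  rw [e1, v1]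
  have c1 : A * m ^ (1 / 2 : ℝ) * (∫ w in Bt, ‖w - 0‖ ^ (-(3 / 2) : ℝ)) ≤
      300 * (2 + A) ^ 2 * m ^ (1 / 2 : ℝ) := by
    calc A * m ^ (1 / 2 : ℝ) * (∫ w in Bt, ‖w - 0‖ ^ (-(3 / 2) : ℝ)) ≤
        A * m ^ (1 / 2 : ℝ) * 42 := mul_le_mul_of_nonneg_left (by linarith) (by positivity)
      _ = 42 * A * m ^ (1 / 2 : ℝ) := by ring
      _ ≤ _ := mul_le_mul_of_nonneg_right (by linarith) hm2.le
  have c2 : d * ((2 + A) ^ 2 / 2 * (∫ w in Bt, ‖w - 0‖ ^ (-1 : ℝ)) + 50 * π) ≤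
      d * (300 * (2 + A) ^ 2) := by
    refine mul_le_mul_of_nonneg_left ?_ hd.le
    have c3 : (2 + A) ^ 2 / 2 * (∫ w in Bt, ‖w - 0‖ ^ (-1 : ℝ)) ≤ (2 + A) ^ 2 / 2 * 63 :=
      mul_le_mul_of_nonneg_left (by linarith) (by positivity)
    linarith
  linarith

/-- the majorant -/
theorem bound5 {A d m ν Kc : ℝ} (hA : 1 ≤ A) (hd : 0 < d) (hm : 0 < m)
    (hdm : (2 + A) ^ 2 * (d + m) ≤ 1) {b c : ℂ → ℝ} (hbm : Measurable b) (hν : 0 ≤ ν)
    (hν1 : ν ≤ 1 / 8) (hb : ∀ y, |b y| ≤ ν) (hcm : Measurable c) (hc : Integrable c)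
    (hc0 : ∀ y, 0 ≤ c y) (hK : ∫ y, c y ≤ Kc) :
    ∃ H : ℂ → ℝ, Measurable H ∧ Integrable H ∧ (∀ y, 0 ≤ H y) ∧ (∀ y, 10 < ‖y‖ → H y = c y) ∧
      (∀ y : ℂ, 4 * m ≤ ‖y‖ → hk y - 1 / 2 + b y +
        (2 * A * m / ‖y‖ ^ 2 + d * ((2 + A) ^ 2 / 2 * (1 / ‖y‖) + 1 / 2)) + c y ≤ H y) ∧
      ∫ y, H y ≤ π / 2 + (∫ y in Dk, b y) + 10 * π * ν ^ 2 + Kc +
        300 * (2 + A) ^ 2 * (d + m ^ (1 / 2 : ℝ)) := by
  have hbi : IntegrableOn b Bt := by
    refine Integrable.mono' (g := fun _ => ν) (integrableOn_const vol_Bt) hbm.aestronglyMeasurable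
      (Filter.Eventually.of_forall fun w => ?_)
    rw [Real.norm_eq_abs]
    exact hb w
  have i1 : IntegrableOn (fun y => max (hk y + b y - 1 / 2) 0) Bt :=
    ((int_hk_Bt.add hbi).sub (integrableOn_const vol_Bt)).pos_part
  have i2 : IntegrableOn (fun y => max (hk y + b y - 1 / 2) 0 + e5 A d m y) Bt := i1.add int_e5
  have hmeas : Measurable fun y => max (hk y + b y - 1 / 2) 0 + e5 A d m y :=
    (((measurable_hk.add hbm).sub_const _).max measurable_const).add (measurable_e5 A d m)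
  refine ⟨fun y => Bt.indicator (fun y => max (hk y + b y - 1 / 2) 0 + e5 A d m y) y + c y,
    (hmeas.indicator meas_Bt).add hcm, (i2.integrable_indicator meas_Bt).add hc, ?_, ?_, ?_, ?_⟩
  · intro y
    refine add_nonneg (indicator_nonneg (fun y _ => ?_) y) (hc0 y)
    exact add_nonneg (le_max_right _ _) (e5_nonneg hA hd hm y)
  · intro y hy
    have : y ∉ Bt := by
      rw [Bt, mem_closedBall, dist_zero_right, not_le]
      exact hy
    simp only [indicator_of_notMem this, zero_add]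
  · intro y hy
    refine add_le_add ?_ le_rfl
    by_cases hB : y ∈ Bt
    · rw [indicator_of_mem hB]
      have h1 := le_e5 hA hd hm hy
      have h2 := le_max_left (hk y + b y - 1 / 2) 0
      linarith
    · rw [indicator_of_notMem hB]
      have hy10 : 10 < ‖y‖ := by
        rw [Bt, mem_closedBall, dist_zero_right, not_le] at hB
        exact hB
      have hy0 : 0 < ‖y‖ := by linarith
      have h1 : 1 / ‖y‖ ≤ 1 / 10 := by
        refine one_div_le_one_div_of_le (by norm_num) hy10.le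
      have h2 : hk y ≤ 1 / 10 := by
        have := (abs_le.mp (abs_hk_le y)).2
        rw [Real.rpow_neg_one, ← one_div] at this
        linarith
      have h3 := (abs_le.mp ((hb y).trans hν1)).2
      have hA9 : 9 ≤ (2 + A) ^ 2 := by nlinarith
      have hA2 : 2 * A ≤ (2 + A) ^ 2 := by nlinarith
      have h4 : 2 * A * m / ‖y‖ ^ 2 ≤ 1 / 100 := by
        have h5 : 2 * A * m ≤ 1 := by nlinarith
        rw [div_le_iff₀ (by positivity)]
        nlinarith
      have hd9 : d ≤ 1 / 9 := by nlinarith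
      have h6 : d * ((2 + A) ^ 2 / 2 * (1 / ‖y‖)) ≤ 1 / 20 := by
        calc d * ((2 + A) ^ 2 / 2 * (1 / ‖y‖)) ≤ d * ((2 + A) ^ 2 / 2 * (1 / 10)) := by
              refine mul_le_mul_of_nonneg_left ?_ hd.le
              exact mul_le_mul_of_nonneg_left h1 (by positivity)
          _ = (2 + A) ^ 2 * d / 20 := by ring
          _ ≤ 1 / 20 := by nlinarith
      nlinarith
  · rw [integral_add (i2.integrable_indicator meas_Bt) hc, integral_indicator meas_Bt,
      integral_add i1 int_e5]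
    have h1 := e5_le hA hd hm
    have h2 : ∫ y in Bt, max (hk y + b y - 1 / 2) 0 ≤
        π / 2 + (∫ y in Dk, b y) + 10 * π * ν ^ 2 := by
      rcases hν.eq_or_lt with h | h
      · have hb0 : ∀ y, b y = 0 := fun y => by
          have := hb y
          rw [← h] at this
          exact abs_nonpos_iff.mp this
        have h3 := pos_part (g := fun _ => (0 : ℝ)) measurable_const (fun _ => by simp)
          (ν := 0) (by norm_num)
        simp only [hb0, ← h]
        simpa using h3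
      · have h3 := pos_part (g := fun y => b y / ν) (hbm.div_const ν) (fun y => by
          rw [abs_div, abs_of_pos h, div_le_one h]
          exact hb y) (ν := ν) (by rwa [abs_of_pos h])
        have h4 : ∀ y, ν * (b y / ν) = b y := fun y => by
          field_simp
        simp only [h4] at h3
        rw [← integral_const_mul] at h3
        simp only [h4] at h3
        exact h3
    linarith

end Pool.Agent.Helper17.G5
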