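import Pool.Agent.Helper17.G5.Main5
import Pool.Agent.Helper33.G5.Inst

/-!
# G5-KEY5: the key inequality for complex exponents, pointwise, without sets and weights
-/

set_option autoImplicit false

namespace Pool.Agent.Helper17.G5

open MeasureTheory Set
open scoped Real

theorem key5 {e₀ : ℝ} (he₀ : 0 < e₀) {σ : ℝ} (hσ : σ = 1 ∨ σ = -1) :
    ∃ (k : ℂ → ℝ) (b c₀ m₁ B d₀ Cc : ℝ), Measurable k ∧ (∀ z, |k z| ≤ 1) ∧ 0 < b ∧ b ≤ 1 ∧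
      0 < c₀ ∧ c₀ ≤ 1 / 2 ∧ 0 < m₁ ∧ m₁ ≤ 1 ∧ 0 < B ∧ 0 < d₀ ∧ d₀ ≤ 1 / 4 ∧ 1 ≤ Cc ∧
      ∀ ω : ℂ, ‖ω‖ = 1 → e₀ ≤ σ * ω.re → ∀ δ : ℝ, 0 < δ → δ ≤ d₀ → ∀ m : ℝ, 0 < m → m ≤ m₁ →
      ∀ s : ℂ, s ≠ 0 → ∀ r : ℝ, 2 * ‖s‖ ≤ r → ∀ ζ : ℂ, ζ ≠ 0 →
      ∃ ν : ℝ, 0 ≤ ν ∧ ν ≤ B * m ∧ ∃ H : ℂ → ℝ, Measurable H ∧ Integrable H ∧ (∀ z, 0 ≤ H z) ∧
        (∀ z : ℂ, r ≤ ‖z‖ →
          Real.exp (δ * ((ω * s / z).re + ‖s‖ ^ 2 / ‖z‖ ^ 2)) * (1 - δ * b * k ((z - s) / ζ)) -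
            Real.exp (δ * m) * (1 - δ * b * k (z / ζ)) +
            ν * (δ * b) * (k (z / ζ) - k (z / (ω * s / (2 * m)))) ≤ δ * H z) ∧
        (∀ z : ℂ, Cc * ‖s‖ / m ≤ ‖z‖ → H z = 0) ∧
        ∫⁻ z, ENNReal.ofReal (H z) ≤ ENNReal.ofReal ((1 - c₀) * (π * ‖s‖ ^ 2 / (4 * m))) := by
  obtain ⟨k, Lk, ρ, kinf, c1, c2, e2, m1, hW⟩ := Helper33.G5.exists_tw he₀ hσ
  obtain ⟨b, c0, m0, B, d0, Cc, hb, hb1, hc0, hc01, hm0, hm01, hB, hd0, hd01, hCc, key⟩ :=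
    keyZ hW (fun v hv => hv.1) (A := 1) le_rfl
  refine ⟨k, b, c0, m0, B, d0, Cc, hW.meas, hW.bd, hb, hb1, hc0, hc01, hm0, hm01, hB, hd0, hd01,
    hCc, ?_⟩
  intro ω hω hre δ hδ hδ1 m hm hm1 s hs r hr ζ hζ
  obtain ⟨ν, hν, hν1, H, g0, g1, g2, g3, g4, g5⟩ := key ω (by
    refine ⟨by rw [Complex.norm_conj]; exact hω, ?_⟩
    rw [Complex.conj_re]
    exact hre) δ hδ hδ1 m hm hm1 s hs ζ hζ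
  refine ⟨ν, hν, hν1, H, g0, g1, g2, fun z hz => ?_, g4, ?_⟩
  · have := g3 z (hr.trans hz)
    rwa [one_mul] at this
  · rw [← ofReal_integral_eq_lintegral_ofReal g1 (Filter.Eventually.of_forall g2)]
    exact ENNReal.ofReal_le_ofReal g5

end Pool.Agent.Helper17.G5
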